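import Mathlib

/-!
# A linear extension operator of norm one for closed subsets of a compact metric space
(Borsuk, Dugundji).  helper64
-/

set_option autoImplicit false

namespace Pool.Agent.Work.MP_c93117_an.I

open Metric Set Topology

namespace DugX

variable {K : Type*} [MetricSpace K] {Q : Set K}

/-- the complement -/
abbrev Co (Q : Set K) : Type _ := {x : K // x ∉ Q}

theorem infDist_pos (hQ : IsClosed Q) (hne : Q.Nonempty) (i : Co Q) : 0 < infDist i.1 Q := by
  have h := (hQ.notMem_iff_infDist_pos hne).mp i.2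
  exact h

theorem exists_pou (hQ : IsClosed Q) (hne : Q.Nonempty) :
    ∃ f : PartitionOfUnity (Co Q) (Co Q) univ,
      f.IsSubordinate (fun i => ball i (infDist i.1 Q / 2)) := by
  refine PartitionOfUnity.exists_isSubordinate isClosed_univ _ (fun i => isOpen_ball) ?_
  intro i _
  exact mem_iUnion.mpr ⟨i, mem_ball_self (half_pos (infDist_pos hQ hne i))⟩

theorem exists_near (hQ : IsCompact Q) (hne : Q.Nonempty) :
    ∃ q : Co Q → Q, ∀ i : Co Q, dist i.1 (q i).1 = infDist i.1 Q := by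
  have h : ∀ i : Co Q, ∃ y : Q, dist i.1 y.1 = infDist i.1 Q := by
    intro i
    obtain ⟨y, hy, hy2⟩ := hQ.exists_infDist_eq_dist hne i.1
    exact ⟨⟨y, hy⟩, hy2.symm⟩
  choose q hq using h
  exact ⟨q, hq⟩

open Classical in
/-- the extension of `g` -/
noncomputable def ext (f : PartitionOfUnity (Co Q) (Co Q) univ) (q : Co Q → Q) (g : Q → ℝ)
    (x : K) : ℝ :=
  if hx : x ∈ Q then g ⟨x, hx⟩ else ∑ᶠ i, f i ⟨x, hx⟩ • g (q i)

variable (f : PartitionOfUnity (Co Q) (Co Q) univ) (q : Co Q → Q)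

theorem ext_mem (g : Q → ℝ) (x : Q) : ext f q g x.1 = g x := by
  unfold ext
  rw [dif_pos x.2]

theorem ext_notMem (g : Q → ℝ) (x : Co Q) : ext f q g x.1 = ∑ᶠ i, f i x • g (q i) := by
  unfold ext
  rw [dif_neg x.2]

theorem fin_supp (x : Co Q) (g : Q → ℝ) : (Function.support fun i => f i x • g (q i)).Finite := by
  refine (f.locallyFinite.point_finite x).subset ?_
  intro i hi
  rw [Function.mem_support] at hi
  show f i x ≠ 0
  intro h
  rw [h, zero_smul] at hi
  exact hi rfl

theorem ext_add (g h : Q → ℝ) (x : K) : ext f q (g + h) x = ext f q g x + ext f q h x := by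
  by_cases hx : x ∈ Q
  · rw [ext_mem f q _ ⟨x, hx⟩, ext_mem f q _ ⟨x, hx⟩, ext_mem f q _ ⟨x, hx⟩]
    rfl
  · rw [ext_notMem f q _ ⟨x, hx⟩, ext_notMem f q _ ⟨x, hx⟩, ext_notMem f q _ ⟨x, hx⟩,
      ← finsum_add_distrib (fin_supp f q _ _) (fin_supp f q _ _)]
    apply finsum_congr
    intro i
    rw [Pi.add_apply, smul_add]

theorem ext_smul (c : ℝ) (g : Q → ℝ) (x : K) : ext f q (c • g) x = c * ext f q g x := by
  by_cases hx : x ∈ Q
  · rw [ext_mem f q _ ⟨x, hx⟩, ext_mem f q _ ⟨x, hx⟩]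
    rfl
  · rw [ext_notMem f q _ ⟨x, hx⟩, ext_notMem f q _ ⟨x, hx⟩, ← smul_eq_mul, smul_finsum]
    apply finsum_congr
    intro i
    simp only [Pi.smul_apply, smul_eq_mul]
    ring

theorem ext_bound (g : Q → ℝ) (C : ℝ) (h : ∀ y, |g y| ≤ C) (x : K) :
    |ext f q g x| ≤ C := by
  by_cases hx : x ∈ Q
  · rw [ext_mem f q _ ⟨x, hx⟩]
    exact h _
  · rw [ext_notMem f q _ ⟨x, hx⟩]
    have h1 : ∑ᶠ i, f i ⟨x, hx⟩ • g (q i) ∈ closedBall (0 : ℝ) C :=
      f.finsum_smul_mem_convex (g := fun i _ => g (q i)) (x := ⟨x, hx⟩) (mem_univ _)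
        (fun i _ => by simpa using h (q i)) (convex_closedBall _ _)
    simpa using h1

theorem ext_cont (hQ : IsClosed Q)
    (hf : f.IsSubordinate (fun i => ball i (infDist i.1 Q / 2)))
    (hq : ∀ i : Co Q, dist i.1 (q i).1 = infDist i.1 Q) (g : Q → ℝ) (hg : Continuous g) :
    Continuous (ext f q g) := by
  rw [continuous_iff_continuousAt]
  intro x
  by_cases hx : x ∈ Q
  · rw [Metric.continuousAt_iff]
    intro ε hε
    have hgx := Metric.continuousAt_iff.mp (hg.continuousAt (x := ⟨x, hx⟩)) (ε / 2)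
      (half_pos hε)
    obtain ⟨δ, hδ, hδ2⟩ := hgx
    refine ⟨δ / 4, by positivity, ?_⟩
    intro y hy
    rw [ext_mem f q g ⟨x, hx⟩]
    by_cases hyQ : y ∈ Q
    · rw [ext_mem f q g ⟨y, hyQ⟩]
      have h1 : dist (⟨y, hyQ⟩ : Q) ⟨x, hx⟩ < δ := by
        show dist y x < δ
        linarith
      have h2 := hδ2 h1
      linarith
    · rw [ext_notMem f q g ⟨y, hyQ⟩]
      have h1 : ∑ᶠ i, f i ⟨y, hyQ⟩ • g (q i) ∈ closedBall (g ⟨x, hx⟩) (ε / 2) := by
        refine f.finsum_smul_mem_convex (g := fun i _ => g (q i)) (x := ⟨y, hyQ⟩) (mem_univ _)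
          ?_ (convex_closedBall _ _)
        intro i hi
        have h2 : (⟨y, hyQ⟩ : Co Q) ∈ ball i (infDist i.1 Q / 2) :=
          hf i (subset_tsupport _ hi)
        have h3 : dist y i.1 < infDist i.1 Q / 2 := h2
        have h4 : infDist i.1 Q ≤ infDist y Q + dist i.1 y := infDist_le_infDist_add_dist
        have h5 : infDist y Q ≤ dist y x := infDist_le_dist_of_mem hx
        have h6 : dist i.1 y = dist y i.1 := dist_comm _ _
        have h7 : dist (q i).1 x ≤ dist (q i).1 i.1 + dist i.1 y + dist y x :=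
          dist_triangle4 _ _ _ _
        have h8 : dist (q i).1 i.1 = infDist i.1 Q := by rw [dist_comm, hq i]
        have h9 : dist (q i) (⟨x, hx⟩ : Q) < δ := by
          show dist (q i).1 x < δ
          linarith
        have h10 := hδ2 h9
        rw [mem_closedBall]
        exact h10.le
      rw [mem_closedBall] at h1
      linarith
  · have hop : IsOpen {y : K | y ∉ Q} := hQ.isOpen_compl
    have hemb : IsOpenEmbedding (Subtype.val : Co Q → K) := hop.isOpenEmbedding_subtypeVal
    have h1 : ContinuousAt (ext f q g ∘ (Subtype.val : Co Q → K)) ⟨x, hx⟩ := by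
      have h2 : ext f q g ∘ (Subtype.val : Co Q → K)
          = fun y : Co Q => ∑ᶠ i, f i y • g (q i) := by
        funext y
        exact ext_notMem f q g y
      rw [h2]
      exact (f.continuous_finsum_smul fun i y _ => continuousAt_const).continuousAt
    exact (hemb.continuousAt_iff (g := ext f q g) (x := ⟨x, hx⟩)).mp h1

end DugX

open DugX in
/-- A linear extension operator of norm one. -/
theorem exists_extension {K : Type*} [MetricSpace K] [CompactSpace K] (Q : Set K)
    [CompactSpace Q] (hne : Q.Nonempty) :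
    ∃ E : C(Q, ℝ) →L[ℝ] C(K, ℝ), (∀ (g : C(Q, ℝ)) (x : Q), E g x.1 = g x) ∧
      ∀ g : C(Q, ℝ), ‖E g‖ ≤ ‖g‖ := by
  have hQ : IsClosed Q := (isCompact_iff_compactSpace.mpr inferInstance : IsCompact Q).isClosed
  obtain ⟨f, hf⟩ := exists_pou hQ hne
  obtain ⟨q, hq⟩ := exists_near hQ.isCompact hne
  let L : C(Q, ℝ) →ₗ[ℝ] C(K, ℝ) :=
    { toFun := fun g => ⟨ext f q g, ext_cont f q hQ hf hq g g.continuous⟩
      map_add' := fun g h => by
        ext x
        exact ext_add f q g h x
      map_smul' := fun c g => by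
        ext x
        exact ext_smul f q c g x }
  have hL : ∀ g, ‖L g‖ ≤ 1 * ‖g‖ := by
    intro g
    rw [one_mul, ContinuousMap.norm_le _ (norm_nonneg _)]
    intro x
    exact ext_bound f q g ‖g‖ (fun y => g.norm_coe_le_norm y) x
  refine ⟨L.mkContinuous 1 hL, ?_, ?_⟩
  · intro g x
    exact ext_mem f q g x
  · intro g
    have := hL g
    rw [one_mul] at this
    exact this

end Pool.Agent.Work.MP_c93117_an.I
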