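import Pool.Agent.Work.MP_c93117_an.I.Defs

set_option autoImplicit false
set_option linter.unusedSectionVars false

/-!
# MP_c93117_an, block I-a: the core facts
-/

open Set Topology

namespace C93117

section core
variable {K : Type} [MetricSpace K] [CompactSpace K] {P : C(K, ℝ) →L[ℝ] C(K, ℝ)}

lemma D_apply_le (P : C(K, ℝ) →L[ℝ] C(K, ℝ)) (s t : K) (σ : ℝ) (f : C(K, ℝ)) :
    |P f s - σ * P f t| ≤ D P s t σ * ‖f‖ := by
  have := (ev P s - σ • ev P t).le_opNorm f
  simpa [D, Real.norm_eq_abs] using this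

lemma D_le_of_forall {s t : K} {σ a : ℝ} (ha : 0 ≤ a)
    (h : ∀ f : C(K, ℝ), |P f s - σ * P f t| ≤ a * ‖f‖) : D P s t σ ≤ a := by
  refine ContinuousLinearMap.opNorm_le_bound _ ha (fun f => ?_)
  simpa [Real.norm_eq_abs] using h f

lemma ev_apply_le (P : C(K, ℝ) →L[ℝ] C(K, ℝ)) (s : K) (f : C(K, ℝ)) :
    |P f s| ≤ ‖ev P s‖ * ‖f‖ := by
  have := (ev P s).le_opNorm f
  simpa [Real.norm_eq_abs] using this

lemma ev_norm_le_of_forall {s : K} {a : ℝ} (ha : 0 ≤ a)
    (h : ∀ f : C(K, ℝ), |P f s| ≤ a * ‖f‖) : ‖ev P s‖ ≤ a := by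
  refine ContinuousLinearMap.opNorm_le_bound _ ha (fun f => ?_)
  simpa [Real.norm_eq_abs] using h f

lemma P_apply_le (P : C(K, ℝ) →L[ℝ] C(K, ℝ)) (s : K) (f : C(K, ℝ)) :
    |P f s| ≤ ‖P‖ * ‖f‖ := by
  have h1 := (P f).norm_coe_le_norm s
  rw [Real.norm_eq_abs] at h1
  exact h1.trans (P.le_opNorm f)

lemma D_nonneg (P : C(K, ℝ) →L[ℝ] C(K, ℝ)) (s t : K) (σ : ℝ) : 0 ≤ D P s t σ :=
  norm_nonneg (ev P s - σ • ev P t)

lemma D_self (P : C(K, ℝ) →L[ℝ] C(K, ℝ)) (t : K) : D P t t 1 = 0 := by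
  have h : ev P t - (1 : ℝ) • ev P t = 0 := by rw [one_smul, sub_self]
  have h2 : D P t t 1 = ‖(0 : C(K, ℝ) →L[ℝ] ℝ)‖ := congrArg (fun φ => ‖φ‖) h
  rw [h2]
  exact norm_zero (E := C(K, ℝ) →L[ℝ] ℝ)

section nrm
variable {V : Type*} [NormedAddCommGroup V] [NormedSpace ℝ V]

lemma nrm_trans (a b c : V) (σ τ : ℝ) :
    ‖a - (σ * τ) • c‖ ≤ ‖a - σ • b‖ + |σ| * ‖b - τ • c‖ := by
  have : a - (σ * τ) • c = (a - σ • b) + σ • (b - τ • c) := by
    rw [smul_sub, smul_smul]; abel
  rw [this]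
  refine (norm_add_le _ _).trans ?_
  rw [norm_smul, Real.norm_eq_abs]

lemma nrm_symm (a b : V) {σ : ℝ} (hσ : σ = 1 ∨ σ = -1) : ‖a - σ • b‖ = ‖b - σ • a‖ := by
  rcases hσ with rfl | rfl
  · rw [one_smul, one_smul, norm_sub_rev]
  · rw [neg_one_smul, neg_one_smul, sub_neg_eq_add, sub_neg_eq_add, add_comm]

lemma nrm_small (a b : V) {σ : ℝ} (hσ : σ = 1 ∨ σ = -1) : ‖a - σ • b‖ ≤ ‖a‖ + ‖b‖ := by
  refine (norm_sub_le _ _).trans ?_
  rw [norm_smul, Real.norm_eq_abs]
  rcases hσ with rfl | rfl <;> simp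

lemma nrm_two (a b : V) : 2 * ‖a‖ ≤ ‖a - (1 : ℝ) • b‖ + ‖a - (-1 : ℝ) • b‖ := by
  have : (2 : ℝ) • a = (a - (1 : ℝ) • b) + (a - (-1 : ℝ) • b) := by
    rw [two_smul, one_smul, neg_one_smul]; abel
  have h2 : ‖(2 : ℝ) • a‖ = 2 * ‖a‖ := by
    rw [norm_smul]; simp
  rw [← h2, this]
  exact norm_add_le _ _

end nrm

lemma D_trans (P : C(K, ℝ) →L[ℝ] C(K, ℝ)) (s r t : K) (σ τ : ℝ) :
    D P s t (σ * τ) ≤ D P s r σ + |σ| * D P r t τ :=
  nrm_trans (ev P s) (ev P r) (ev P t) σ τ

lemma D_symm (P : C(K, ℝ) →L[ℝ] C(K, ℝ)) (s t : K) {σ : ℝ} (hσ : σ = 1 ∨ σ = -1) :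
    D P s t σ = D P t s σ :=
  nrm_symm (ev P s) (ev P t) hσ

lemma D_small (P : C(K, ℝ) →L[ℝ] C(K, ℝ)) (s t : K) {σ : ℝ} (hσ : σ = 1 ∨ σ = -1) :
    D P s t σ ≤ ‖ev P s‖ + ‖ev P t‖ :=
  nrm_small (ev P s) (ev P t) hσ

lemma two_ev_le (P : C(K, ℝ) →L[ℝ] C(K, ℝ)) (s t : K) :
    2 * ‖ev P s‖ ≤ D P s t 1 + D P s t (-1) :=
  nrm_two (ev P s) (ev P t)

lemma isClosed_D_le (P : C(K, ℝ) →L[ℝ] C(K, ℝ)) (σ : ℝ) {a : ℝ} (ha : 0 ≤ a) :
    IsClosed {z : K × K | D P z.1 z.2 σ ≤ a} := by
  have : {z : K × K | D P z.1 z.2 σ ≤ a} =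
      ⋂ f : C(K, ℝ), {z : K × K | |P f z.1 - σ * P f z.2| ≤ a * ‖f‖} := by
    ext z
    simp only [mem_setOf_eq, mem_iInter]
    constructor
    · intro h f
      exact (D_apply_le P _ _ _ f).trans (by gcongr)
    · intro h
      exact D_le_of_forall ha h
  rw [this]
  refine isClosed_iInter fun f => isClosed_le ?_ continuous_const
  have h1 : Continuous fun z : K × K => P f z.1 := (P f).continuous.comp continuous_fst
  have h2 : Continuous fun z : K × K => P f z.2 := (P f).continuous.comp continuous_snd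
  fun_prop

/-- `r` is near `±s`. -/
def Near (P : C(K, ℝ) →L[ℝ] C(K, ℝ)) (a : ℝ) (r s : K) : Prop :=
  D P r s 1 ≤ a ∨ D P r s (-1) ≤ a

lemma near_trans {a b : ℝ} {r s t : K} (h1 : Near P a r t) (h2 : Near P b s t) :
    Near P (a + b) r s := by
  have hs1 : D P t s 1 = D P s t 1 := D_symm P t s (Or.inl rfl)
  have hs2 : D P t s (-1) = D P s t (-1) := D_symm P t s (Or.inr rfl)
  rcases h1 with h1 | h1 <;> rcases h2 with h2 | h2
  · left
    have := D_trans P r t s 1 1
    rw [mul_one, abs_one, one_mul, hs1] at this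
    linarith
  · right
    have := D_trans P r t s 1 (-1)
    rw [one_mul, abs_one, one_mul, hs2] at this
    linarith
  · right
    have := D_trans P r t s (-1) 1
    rw [mul_one, abs_neg, abs_one, one_mul, hs1] at this
    linarith
  · left
    have := D_trans P r t s (-1) (-1)
    rw [neg_mul_neg, one_mul, abs_neg, abs_one, one_mul, hs2] at this
    linarith

lemma isClosed_near (P : C(K, ℝ) →L[ℝ] C(K, ℝ)) {a : ℝ} (ha : 0 ≤ a) :
    IsClosed {z : K × K | Near P a z.1 z.2} :=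
  (isClosed_D_le P 1 ha).union (isClosed_D_le P (-1) ha)

/-- The compact set `Q`. -/
def QQ (P : C(K, ℝ) →L[ℝ] C(K, ℝ)) : Set K :=
  closure (⋃ t ∈ {t | Conc P (1 / 10000) t}, B P (1 / 10000) t)

lemma mem_QQ {t s : K} (ht : Conc P (1 / 10000) t) (hs : Near P (1 / 10000) s t) : s ∈ QQ P := by
  apply subset_closure
  simp only [mem_iUnion]
  exact ⟨t, ht, hs⟩

/-- clamp -/
noncomputable def clamp (f : C(K, ℝ)) (δ : ℝ) : C(K, ℝ) :=
  ⟨fun r => max (min (f r) δ) (-δ), by fun_prop⟩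

lemma clamp_apply (f : C(K, ℝ)) (δ : ℝ) (r : K) : clamp f δ r = max (min (f r) δ) (-δ) := rfl

lemma clamp_norm (f : C(K, ℝ)) {δ : ℝ} (hδ : 0 ≤ δ) : ‖clamp f δ‖ ≤ δ := by
  rw [ContinuousMap.norm_le _ hδ]
  intro r
  rw [clamp_apply, Real.norm_eq_abs, abs_le]
  constructor
  · exact le_max_right _ _
  · exact max_le (min_le_right _ _) (by linarith)

lemma clamp_eq (f : C(K, ℝ)) {δ : ℝ} {r : K} (h : |f r| ≤ δ) : clamp f δ r = f r := by
  rw [clamp_apply, min_eq_left (abs_le.mp h).2, max_eq_left (abs_le.mp h).1]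

lemma sub_clamp_norm (f : C(K, ℝ)) {δ : ℝ} (hδ : 0 ≤ δ) : ‖f - clamp f δ‖ ≤ ‖f‖ := by
  rw [ContinuousMap.norm_le _ (norm_nonneg f)]
  intro r
  have h1 := f.norm_coe_le_norm r
  rw [Real.norm_eq_abs] at h1
  rw [ContinuousMap.sub_apply, clamp_apply, Real.norm_eq_abs]
  refine le_trans ?_ h1
  rcases le_total (f r) δ with h2 | h2
  · rw [min_eq_left h2]
    rcases le_total (f r) (-δ) with h3 | h3
    · rw [max_eq_right h3, abs_of_nonpos (by linarith), abs_of_nonpos (by linarith)]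
      linarith
    · rw [max_eq_left h3, sub_self, abs_zero]
      exact abs_nonneg _
  · rw [min_eq_right h2, max_eq_left (by linarith), abs_of_nonneg (by linarith),
      abs_of_nonneg (by linarith)]
    linarith

/-- Claim A. -/
lemma claimA (hP : ‖P‖ ≤ 1 + 1 / 10000) {s : K} (hs : s ∈ QQ P) (f : C(K, ℝ))
    (hf : ∀ r ∈ QQ P, Near P (1 / 5000) r s → f r = 0) : |P f s| ≤ 1 / 5000 * ‖f‖ := by
  by_contra hcon
  push Not at hcon
  obtain ⟨δ, hδ, hδ'⟩ : ∃ δ : ℝ, 0 < δ ∧ 1 / 5000 * ‖f‖ + 2 * δ < |P f s| :=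
    ⟨(|P f s| - 1 / 5000 * ‖f‖) / 4, by linarith, by linarith⟩
  set U : Set K := {u | 1 / 5000 * ‖f‖ + 2 * δ < |P f u|} with hU
  have hUo : IsOpen U := isOpen_lt continuous_const (P f).continuous.abs
  set A : Set K := ⋃ t ∈ {t | Conc P (1 / 10000) t}, B P (1 / 10000) t with hA
  set R : Set K := Prod.snd '' {z : K × K | z.1 ∈ QQ P ∧ δ ≤ |f z.1| ∧ Near P (1 / 5000) z.1 z.2}
    with hR
  have hRc : IsClosed R := by
    have h1 : IsClosed {z : K × K | z.1 ∈ QQ P ∧ δ ≤ |f z.1| ∧ Near P (1 / 5000) z.1 z.2} := by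
      refine IsClosed.inter (isClosed_closure.preimage continuous_fst) (IsClosed.inter ?_ ?_)
      · exact isClosed_le continuous_const ((f.continuous.comp continuous_fst).abs)
      · exact isClosed_near P (by norm_num)
    exact (h1.isCompact.image continuous_snd).isClosed
  have hsub : U ∩ A ⊆ R := by
    rintro u ⟨huU, huA⟩
    simp only [hA, mem_iUnion] at huA
    obtain ⟨t, ht, hut⟩ := huA
    have hut' : Near P (1 / 10000) u t := hut
    by_contra hnot
    have hnot' : ∀ r ∈ QQ P, Near P (1 / 5000) r u → |f r| ≤ δ := by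
      intro r hr hru
      by_contra h
      push Not at h
      exact hnot ⟨(r, u), ⟨hr, h.le, hru⟩, rfl⟩
    have hz : ∀ r ∈ B P (1 / 10000) t, (f - clamp f δ) r = 0 := by
      intro r hr
      have hr' : Near P (1 / 10000) r t := hr
      have h1 : Near P (1 / 5000) r u := by
        have := near_trans hr' hut'
        norm_num at this
        exact this
      rw [ContinuousMap.sub_apply, clamp_eq f (hnot' r (mem_QQ ht hr') h1), sub_self]
    have h2 := ht (f - clamp f δ) hz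
    have h3 := sub_clamp_norm f hδ.le
    have h4 := clamp_norm f hδ.le
    have h5 := P_apply_le P t (clamp f δ)
    have h6 : |P f t| ≤ 1 / 10000 * ‖f‖ + (1 + 1 / 10000) * δ := by
      have e1 : P f t = P (f - clamp f δ) t + P (clamp f δ) t := by
        rw [map_sub, ContinuousMap.sub_apply]; ring
      have e2 : ‖P‖ * ‖clamp f δ‖ ≤ (1 + 1 / 10000) * δ :=
        mul_le_mul hP h4 (norm_nonneg _) (by norm_num)
      rw [e1]
      refine (abs_add_le _ _).trans ?_
      linarith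
    have h7 : |P f u| ≤ |P f t| + 1 / 10000 * ‖f‖ := by
      have hn := norm_nonneg f
      rcases hut' with h | h
      · have := D_apply_le P u t 1 f
        rw [one_mul] at this
        have h8 : D P u t 1 * ‖f‖ ≤ 1 / 10000 * ‖f‖ := by gcongr
        have h9 := abs_sub_abs_le_abs_sub (P f u) (P f t)
        linarith
      · have := D_apply_le P u t (-1) f
        rw [neg_one_mul, sub_neg_eq_add] at this
        have h8 : D P u t (-1) * ‖f‖ ≤ 1 / 10000 * ‖f‖ := by gcongr
        have h9 := abs_sub_abs_le_abs_sub (P f u) (-(P f t))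
        rw [abs_neg, sub_neg_eq_add] at h9
        linarith
    have h10 : 1 / 5000 * ‖f‖ + 2 * δ < |P f u| := huU
    linarith
  have hsR : s ∈ R := by
    have h1 : s ∈ closure (U ∩ A) := hUo.inter_closure ⟨hδ', hs⟩
    exact (closure_minimal hsub hRc) h1
  obtain ⟨⟨r, u⟩, ⟨hr, hfr, hru⟩, hu⟩ := hsR
  simp only at hr hfr hru hu
  subst hu
  rw [hf r hr hru, abs_zero] at hfr
  linarith

/-- Claim A, quantitative. -/
lemma claimA' (hP : ‖P‖ ≤ 1 + 1 / 10000) {s : K} (hs : s ∈ QQ P) (f : C(K, ℝ)) {a : ℝ}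
    (ha : 0 ≤ a) (hf : ∀ r ∈ QQ P, Near P (1 / 5000) r s → |f r| ≤ a) :
    |P f s| ≤ 1 / 5000 * ‖f‖ + (1 + 1 / 10000) * a := by
  have h1 := claimA hP hs (f - clamp f a) (by
    intro r hr hrs
    rw [ContinuousMap.sub_apply, clamp_eq f (hf r hr hrs), sub_self])
  have h3 := sub_clamp_norm f ha
  have h4 := clamp_norm f ha
  have h5 := P_apply_le P s (clamp f a)
  have e1 : P f s = P (f - clamp f a) s + P (clamp f a) s := by
    rw [map_sub, ContinuousMap.sub_apply]; ring
  have e2 : ‖P‖ * ‖clamp f a‖ ≤ (1 + 1 / 10000) * a :=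
    mul_le_mul hP h4 (norm_nonneg _) (by norm_num)
  rw [e1]
  refine (abs_add_le _ _).trans ?_
  linarith

/-- Claim B. -/
lemma claimB (hPP : ∀ f, P (P f) = P f) (hP : ‖P‖ ≤ 1 + 1 / 10000) {s : K} (hs : s ∈ QQ P) :
    ‖ev P s‖ ≤ 7 / 10000 ∨ ∃ h : C(K, ℝ), (∀ r, |h r| ≤ 1) ∧
      (∀ r ∈ QQ P, D P r s 1 ≤ 1 / 5000 → h r = 1) ∧
      (∀ r ∈ QQ P, D P r s (-1) ≤ 1 / 5000 → h r = -1) ∧ 1 - 7 / 10000 ≤ P h s := by
  by_cases hdis : ∃ r, D P r s 1 ≤ 1 / 5000 ∧ D P r s (-1) ≤ 1 / 5000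
  · left
    obtain ⟨r, h1, h2⟩ := hdis
    have := two_ev_le P s r
    rw [D_symm P s r (Or.inl rfl), D_symm P s r (Or.inr rfl)] at this
    linarith
  · push Not at hdis
    have hc1 : IsClosed {r : K | r ∈ QQ P ∧ D P r s 1 ≤ 1 / 5000} :=
      isClosed_closure.inter
        ((isClosed_D_le P 1 (by norm_num)).preimage (Continuous.prodMk_left s))
    have hc2 : IsClosed {r : K | r ∈ QQ P ∧ D P r s (-1) ≤ 1 / 5000} :=
      isClosed_closure.inter
        ((isClosed_D_le P (-1) (by norm_num)).preimage (Continuous.prodMk_left s))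
    obtain ⟨u, hu1, hu2, hu3⟩ := exists_continuous_zero_one_of_isClosed hc1 hc2 (by
      rw [Set.disjoint_left]
      rintro r ⟨_, h1⟩ ⟨_, h2⟩
      exact absurd h2 (not_le.mpr (hdis r h1)))
    set h : C(K, ℝ) := 1 - (2 : ℝ) • u with hh
    have hval : ∀ r, h r = 1 - 2 * u r := fun r => by
      rw [hh, ContinuousMap.sub_apply, ContinuousMap.smul_apply, ContinuousMap.one_apply,
        smul_eq_mul]
    have habs : ∀ r, |h r| ≤ 1 := fun r => by
      rw [hval, abs_le]
      have := hu3 r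
      constructor <;> linarith [this.1, this.2]
    have hp1 : ∀ r ∈ QQ P, D P r s 1 ≤ 1 / 5000 → h r = 1 := fun r hr hd => by
      rw [hval, hu1 ⟨hr, hd⟩]; simp
    have hm1 : ∀ r ∈ QQ P, D P r s (-1) ≤ 1 / 5000 → h r = -1 := fun r hr hd => by
      rw [hval, hu2 ⟨hr, hd⟩]; norm_num
    have hnorm : ‖h‖ ≤ 1 := by
      rw [ContinuousMap.norm_le _ zero_le_one]
      intro r
      rw [Real.norm_eq_abs]
      exact habs r
    -- main estimate
    have hmain : ∀ f : C(K, ℝ), |P f s| * |1 - P h s| ≤ 6001 / 10000000 * ‖f‖ := by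
      intro f
      have hn := norm_nonneg f
      have hPf : ‖P f‖ ≤ (1 + 1 / 10000) * ‖f‖ :=
        (P.le_opNorm f).trans (by gcongr)
      have hPfs : |P f s| ≤ (1 + 1 / 10000) * ‖f‖ :=
        (P_apply_le P s f).trans (by gcongr)
      have h1 := claimA' hP hs (P f - (P f s) • h) (a := 1 / 5000 * ‖f‖) (by positivity) (by
        intro r hr hrs
        rw [ContinuousMap.sub_apply, ContinuousMap.smul_apply, smul_eq_mul]
        rcases hrs with hd | hd
        · rw [hp1 r hr hd, mul_one]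
          have := D_apply_le P r s 1 f
          rw [one_mul] at this
          exact this.trans (by gcongr)
        · rw [hm1 r hr hd]
          have := D_apply_le P r s (-1) f
          rw [neg_one_mul] at this
          rw [mul_neg_one]
          exact this.trans (by gcongr))
      have h2 : P (P f - (P f s) • h) s = P f s * (1 - P h s) := by
        rw [map_sub, hPP, map_smul, ContinuousMap.sub_apply, ContinuousMap.smul_apply,
          smul_eq_mul]
        ring
      have h3 : ‖P f - (P f s) • h‖ ≤ 2 * (1 + 1 / 10000) * ‖f‖ := by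
        refine (norm_sub_le _ _).trans ?_
        rw [norm_smul, Real.norm_eq_abs]
        have : |P f s| * ‖h‖ ≤ |P f s| * 1 := by gcongr
        linarith
      rw [h2, abs_mul] at h1
      linarith
    have hmain' : ‖ev P s‖ * |1 - P h s| ≤ 6001 / 10000000 := by
      rcases (abs_nonneg (1 - P h s)).eq_or_lt with h0 | h0
      · rw [← h0, mul_zero]; norm_num
      · have : ‖ev P s‖ ≤ 6001 / 10000000 / |1 - P h s| := by
          refine ev_norm_le_of_forall (by positivity) (fun f => ?_)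
          rw [div_mul_eq_mul_div, le_div_iff₀ h0]
          exact hmain f
        rwa [le_div_iff₀ h0] at this
    have hw : P h s ≤ ‖ev P s‖ := by
      have h1 := ev_apply_le P s h
      have h2 : ‖ev P s‖ * ‖h‖ ≤ ‖ev P s‖ * 1 := by gcongr
      exact (le_abs_self _).trans (by linarith)
    by_cases hsm : ‖ev P s‖ ≤ 7 / 10000
    · exact Or.inl hsm
    · right
      refine ⟨h, habs, hp1, hm1, ?_⟩
      by_contra hcon
      push Not at hsm hcon
      have h1 : ‖ev P s‖ * (1 - P h s) ≤ 6001 / 10000000 :=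
        (by gcongr; exact le_abs_self _ : ‖ev P s‖ * (1 - P h s) ≤ ‖ev P s‖ * |1 - P h s|).trans
          hmain'
      have hn := norm_nonneg (ev P s)
      rcases le_total (9 / 10) (P h s) with h2 | h2
      · have h3 : (9 / 10 : ℝ) ≤ ‖ev P s‖ := h2.trans hw
        have h4 : (9 / 10 : ℝ) * (7 / 10000) ≤ ‖ev P s‖ * (1 - P h s) :=
          mul_le_mul h3 (by linarith) (by norm_num) hn
        linarith
      · have h3 : ‖ev P s‖ * (1 / 10) ≤ ‖ev P s‖ * (1 - P h s) := by
          gcongr; linarith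
        have h4 : ‖ev P s‖ * (99 / 100) ≤ ‖ev P s‖ * (1 - P h s) := by
          gcongr; linarith
        linarith

/-- Claim C. -/
lemma claimC (hPP : ∀ f, P (P f) = P f) (hP : ‖P‖ ≤ 1 + 1 / 10000) {s t : K} (hs : s ∈ QQ P)
    (ht : t ∈ QQ P) {σ : ℝ} (hσ : σ = 1 ∨ σ = -1) (hD : D P s t σ ≤ 1 / 2) :
    D P s t σ ≤ 1 / 500 := by
  have hnorm1 : ∀ h : C(K, ℝ), (∀ r, |h r| ≤ 1) → ‖h‖ ≤ 1 := fun h hh => by
    rw [ContinuousMap.norm_le _ zero_le_one]
    intro r
    rw [Real.norm_eq_abs]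
    exact hh r
  have hσabs : |σ| = 1 := by rcases hσ with rfl | rfl <;> simp
  have hσsq : σ * σ = 1 := by rcases hσ with rfl | rfl <;> norm_num
  rcases claimB hPP hP hs with h1 | ⟨h1, a1, b1, c1, d1⟩ <;>
    rcases claimB hPP hP ht with h2 | ⟨h2, a2, b2, c2, d2⟩
  · have := D_small P s t hσ
    linarith
  · exfalso
    have e1 := D_apply_le P s t σ h2
    have e2 := ev_apply_le P s h2
    have e3 := hnorm1 h2 a2
    have e4 : D P s t σ * ‖h2‖ ≤ D P s t σ * 1 := by
      have := D_nonneg P s t σ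
      gcongr
    have e5 : ‖ev P s‖ * ‖h2‖ ≤ ‖ev P s‖ * 1 := by gcongr
    have e6 : |σ * P h2 t| ≤ |P h2 s - σ * P h2 t| + |P h2 s| := by
      have := abs_sub_abs_le_abs_sub (σ * P h2 t) (P h2 s)
      rw [abs_sub_comm] at this
      linarith
    rw [abs_mul, hσabs, one_mul] at e6
    have e7 := le_abs_self (P h2 t)
    linarith
  · exfalso
    have e1 := D_apply_le P s t σ h1
    have e2 := ev_apply_le P t h1
    have e3 := hnorm1 h1 a1
    have e4 : D P s t σ * ‖h1‖ ≤ D P s t σ * 1 := by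
      have := D_nonneg P s t σ
      gcongr
    have e5 : ‖ev P t‖ * ‖h1‖ ≤ ‖ev P t‖ * 1 := by gcongr
    have e6 : |P h1 s| ≤ |P h1 s - σ * P h1 t| + |σ * P h1 t| := by
      have := abs_sub_abs_le_abs_sub (P h1 s) (σ * P h1 t)
      linarith
    rw [abs_mul, hσabs, one_mul] at e6
    have e7 := le_abs_self (P h1 s)
    linarith
  · have hn1 := hnorm1 h1 a1
    have hn2 := hnorm1 h2 a2
    by_cases hr : ∃ r, Near P (1 / 5000) r s ∧ Near P (1 / 5000) r t
    · obtain ⟨r, hrs, hrt⟩ := hr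
      have hsr : Near P (1 / 5000) s r := by
        rcases hrs with h | h
        · exact Or.inl (by rwa [D_symm P s r (Or.inl rfl)])
        · exact Or.inr (by rwa [D_symm P s r (Or.inr rfl)])
      have htr : Near P (1 / 5000) t r := by
        rcases hrt with h | h
        · exact Or.inl (by rwa [D_symm P t r (Or.inl rfl)])
        · exact Or.inr (by rwa [D_symm P t r (Or.inr rfl)])
      have hst := near_trans hsr htr
      have hev : 1 - 7 / 10000 ≤ ‖ev P s‖ := by
        have e1 := ev_apply_le P s h1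
        have e2 : ‖ev P s‖ * ‖h1‖ ≤ ‖ev P s‖ * 1 := by gcongr
        have e3 := le_abs_self (P h1 s)
        linarith
      have h2e := two_ev_le P s t
      rcases hst with h | h <;> rcases hσ with rfl | rfl <;> linarith
    · exfalso
      push Not at hr
      have hc1 : IsClosed {r : K | Near P (1 / 5000) r s} :=
        (isClosed_near P (by norm_num)).preimage (Continuous.prodMk_left s)
      have hc2 : IsClosed {r : K | Near P (1 / 5000) r t} :=
        (isClosed_near P (by norm_num)).preimage (Continuous.prodMk_left t)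
      obtain ⟨u, hu1, hu2, hu3⟩ := exists_continuous_zero_one_of_isClosed hc1 hc2 (by
        rw [Set.disjoint_left]
        exact fun r h1 h2 => hr r h1 h2)
      set h : C(K, ℝ) := (1 - u) * h1 - σ • (u * h2) with hh
      have hval : ∀ r, h r = (1 - u r) * h1 r - σ * (u r * h2 r) := fun r => by
        rw [hh, ContinuousMap.sub_apply, ContinuousMap.mul_apply, ContinuousMap.smul_apply,
          ContinuousMap.mul_apply, ContinuousMap.sub_apply, ContinuousMap.one_apply, smul_eq_mul]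
      have habs : ∀ r, |h r| ≤ 1 := fun r => by
        rw [hval]
        have q := hu3 r
        refine (abs_sub _ _).trans ?_
        rw [abs_mul, abs_mul, abs_mul, hσabs, one_mul, abs_of_nonneg (by linarith [q.2]),
          abs_of_nonneg q.1]
        have q1 : (1 - u r) * |h1 r| ≤ (1 - u r) * 1 := by
          have : 0 ≤ 1 - u r := by linarith [q.2]
          gcongr
          exact a1 r
        have q2 : u r * |h2 r| ≤ u r * 1 := by
          have := q.1
          gcongr
          exact a2 r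
        linarith
      have hn := hnorm1 h habs
      have k1 := claimA hP hs (h - h1) (by
        intro r _ hrs
        rw [ContinuousMap.sub_apply, hval, hu1 hrs]; simp)
      have k2 := claimA hP ht (h + σ • h2) (by
        intro r _ hrt
        rw [ContinuousMap.add_apply, ContinuousMap.smul_apply, hval, hu2 hrt]; simp)
      have k3 : ‖h - h1‖ ≤ 2 := (norm_sub_le _ _).trans (by linarith)
      have k4 : ‖h + σ • h2‖ ≤ 2 := by
        refine (norm_add_le _ _).trans ?_
        rw [norm_smul, Real.norm_eq_abs, hσabs, one_mul]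
        linarith
      rw [map_sub, ContinuousMap.sub_apply] at k1
      rw [map_add, map_smul, ContinuousMap.add_apply, ContinuousMap.smul_apply, smul_eq_mul] at k2
      have k5 := (abs_le.mp k1).1
      have k6 : σ * P h t + P h2 t ≤ 1 / 5000 * ‖h + σ • h2‖ := by
        have : σ * P h t + P h2 t = σ * (P h t + σ * P h2 t) := by
          rw [mul_add, ← mul_assoc, hσsq, one_mul]
        rw [this]
        refine (le_abs_self _).trans ?_
        rw [abs_mul, hσabs, one_mul]
        exact k2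
      have e1 := D_apply_le P s t σ h
      have e4 : D P s t σ * ‖h‖ ≤ D P s t σ * 1 := by
        have := D_nonneg P s t σ
        gcongr
      have e5 := le_abs_self (P h s - σ * P h t)
      linarith

/-- Claim D. -/
lemma claimD (hPP : ∀ f, P (P f) = P f) (hP : ‖P‖ ≤ 1 + 1 / 10000) (F : C(K, ℝ))
    (hF : ∀ s ∈ QQ P, ∀ t ∈ QQ P, ∀ σ : ℝ, (σ = 1 ∨ σ = -1) → D P s t σ ≤ 1 / 2 →
      F s = σ * F t) {s : K} (hs : s ∈ QQ P) : |P F s - F s| ≤ 1 / 500 * ‖F‖ := by
  have hn := norm_nonneg F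
  rcases claimB hPP hP hs with h1 | ⟨h, a1, b1, c1, d1⟩
  · have e1 := D_small P s s (σ := -1) (Or.inr rfl)
    have e2 := hF s hs s hs (-1) (Or.inr rfl) (by linarith)
    have e3 : F s = 0 := by linarith
    have e4 := ev_apply_le P s F
    rw [e3, sub_zero]
    refine e4.trans ?_
    gcongr
    linarith
  · have hnh : ‖h‖ ≤ 1 := by
      rw [ContinuousMap.norm_le _ zero_le_one]
      intro r
      rw [Real.norm_eq_abs]
      exact a1 r
    have k1 := claimA hP hs (F - F s • h) (by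
      intro r hr hrs
      rw [ContinuousMap.sub_apply, ContinuousMap.smul_apply, smul_eq_mul]
      rcases hrs with hd | hd
      · rw [b1 r hr hd, hF r hr s hs 1 (Or.inl rfl) (by linarith)]; ring
      · rw [c1 r hr hd, hF r hr s hs (-1) (Or.inr rfl) (by linarith)]; ring)
    have hFs : |F s| ≤ ‖F‖ := by
      have := F.norm_coe_le_norm s
      rwa [Real.norm_eq_abs] at this
    have k2 : ‖F - F s • h‖ ≤ 2 * ‖F‖ := by
      refine (norm_sub_le _ _).trans ?_
      rw [norm_smul, Real.norm_eq_abs]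
      have : |F s| * ‖h‖ ≤ |F s| * 1 := by gcongr
      linarith
    rw [map_sub, map_smul, ContinuousMap.sub_apply, ContinuousMap.smul_apply, smul_eq_mul] at k1
    have k3 : P h s ≤ 1 + 1 / 10000 := by
      have e1 := P_apply_le P s h
      have e2 : ‖P‖ * ‖h‖ ≤ (1 + 1 / 10000) * 1 :=
        mul_le_mul hP hnh (norm_nonneg _) (by norm_num)
      exact (le_abs_self _).trans (by linarith)
    have k4 : |P h s - 1| ≤ 7 / 10000 := by
      rw [abs_le]; constructor <;> linarith
    have k5 : |F s * (P h s - 1)| ≤ 7 / 10000 * ‖F‖ := by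
      rw [abs_mul, mul_comm]
      exact mul_le_mul k4 hFs (abs_nonneg _) (by norm_num)
    have k6 : P F s - F s = (P F s - F s * P h s) + F s * (P h s - 1) := by ring
    rw [k6]
    refine (abs_add_le _ _).trans ?_
    linarith

end core

theorem pr_StIa : StIa := by
  intro K _ _ P hPP hP hN
  refine ⟨QQ P, isClosed_closure, ?_, ?_, ?_⟩
  · intro s hs t ht σ hσ hD
    exact claimC hPP hP hs ht hσ hD
  · intro F hF s hs
    exact claimD hPP hP F hF hs
  · intro x hx h0
    obtain ⟨t, ht, ht'⟩ := hN x hx h0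
    refine ⟨t, mem_QQ ht (Or.inl ?_), ht'⟩
    rw [D_self]; norm_num

end C93117
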