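import Pool.Agent.Work.MP_c93117_an.Main.Defs

set_option autoImplicit false

/-!
# MP_c93117_an, block [I]: from norming good points to `C(L)` — statements of the sub-blocks

`stI_of_blocks : StIa → StIb → StIc → StId → StI`.
-/

open Set Topology

namespace C93117

section defs
variable {K : Type} [MetricSpace K] [CompactSpace K]

/-- The concentration part of `Good`. -/
def Conc (P : C(K, ℝ) →L[ℝ] C(K, ℝ)) (c : ℝ) (t : K) : Prop :=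
  ∀ f : C(K, ℝ), (∀ s ∈ B P c t, f s = 0) → |P f t| ≤ c * ‖f‖

/-- The facts about the compact set `Q` (closure of the union of the sets `B P c t`, `t` good)
that are used in the rest of block [I]. -/
structure CoreFacts (P : C(K, ℝ) →L[ℝ] C(K, ℝ)) (Q : Set K) : Prop where
  closed : IsClosed Q
  /-- distances between the functionals `± δ_s P`, `s ∈ Q`, are small or large -/
  gap : ∀ s ∈ Q, ∀ t ∈ Q, ∀ σ : ℝ, (σ = 1 ∨ σ = -1) → D P s t σ ≤ 1 / 2 → D P s t σ ≤ 1 / 500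
  /-- functions compatible with the relation are almost fixed by `P` on `Q` -/
  est : ∀ F : C(K, ℝ), (∀ s ∈ Q, ∀ t ∈ Q, ∀ σ : ℝ, (σ = 1 ∨ σ = -1) → D P s t σ ≤ 1 / 2 →
    F s = σ * F t) → ∀ s ∈ Q, |P F s - F s| ≤ 1 / 500 * ‖F‖
  norming : ∀ x : C(K, ℝ), P x = x → x ≠ 0 → ∃ t ∈ Q, 1 / 2 * ‖x‖ ≤ |x t|

/-- The functions on `Q` compatible with the relation `D P s t σ ≤ 1 / 2`. -/
def Y (P : C(K, ℝ) →L[ℝ] C(K, ℝ)) (Q : Set K) : Submodule ℝ C(Q, ℝ) where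
  carrier := {g | ∀ s t : Q, ∀ σ : ℝ, (σ = 1 ∨ σ = -1) → D P s t σ ≤ 1 / 2 → g s = σ * g t}
  add_mem' := by
    intro a b ha hb s t σ hσ h
    rw [ContinuousMap.add_apply, ContinuousMap.add_apply, ha s t σ hσ h, hb s t σ hσ h]; ring
  zero_mem' := by
    intro s t σ _ _
    simp
  smul_mem' := by
    intro r a ha s t σ hσ h
    rw [ContinuousMap.smul_apply, ContinuousMap.smul_apply, ha s t σ hσ h, smul_eq_mul,
      smul_eq_mul]; ring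

lemma mem_Y {P : C(K, ℝ) →L[ℝ] C(K, ℝ)} {Q : Set K} {g : C(Q, ℝ)} : g ∈ Y P Q ↔
    ∀ s t : Q, ∀ σ : ℝ, (σ = 1 ∨ σ = -1) → D P s t σ ≤ 1 / 2 → g s = σ * g t := Iff.rfl

end defs

/-- Block I-a (core). -/
def StIa : Prop := ∀ (K : Type) [MetricSpace K] [CompactSpace K] (P : C(K, ℝ) →L[ℝ] C(K, ℝ)),
  (∀ f, P (P f) = P f) → ‖P‖ ≤ 1 + 1 / 10000 →
  (∀ x : C(K, ℝ), P x = x → x ≠ 0 → ∃ t, Conc P (1 / 10000) t ∧ 1 / 2 * ‖x‖ ≤ |x t|) →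
  ∃ Q : Set K, CoreFacts P Q

/-- Block I-b (quotient and odd functions). -/
def StIb : Prop := ∀ (K : Type) [MetricSpace K] [CompactSpace K] (p : Submodule ℝ C(K, ℝ))
  (P : C(K, ℝ) →L[ℝ] C(K, ℝ)), IsProj p P → ‖P‖ ≤ 1 + 1 / 10000 →
  TopologicalSpace.SeparableSpace (StrongDual ℝ p) → ∀ Q : Set K, CoreFacts P Q →
  ∃ (L : Type) (_ : MetricSpace L) (_ : CompactSpace L), Nonempty (Y P Q ≃L[ℝ] C(L, ℝ))

/-- Block I-c (approximation). -/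
def StIc : Prop := ∀ (K : Type) [MetricSpace K] [CompactSpace K] (P : C(K, ℝ) →L[ℝ] C(K, ℝ)),
  (∀ f, P (P f) = P f) → ‖P‖ ≤ 1 + 1 / 10000 → ∀ Q : Set K, CoreFacts P Q →
  ∀ x : C(K, ℝ), P x = x → ∃ g ∈ Y P Q, ∀ s : Q, |g s - x s| ≤ 1 / 400 * ‖x‖

/-- Block I-d (the isomorphism `Y ≅ p`, `g ↦ P (E g)`). -/
def StId : Prop := ∀ (K : Type) [MetricSpace K] [CompactSpace K] (p : Submodule ℝ C(K, ℝ))
  (P : C(K, ℝ) →L[ℝ] C(K, ℝ)), IsProj p P → ‖P‖ ≤ 1 + 1 / 10000 → ∀ Q : Set K, CoreFacts P Q →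
  (∀ x : C(K, ℝ), P x = x → ∃ g ∈ Y P Q, ∀ s : Q, |g s - x s| ≤ 1 / 400 * ‖x‖) →
  Nonempty (p ≃L[ℝ] Y P Q)

theorem stI_of_blocks (ha : StIa) (hb : StIb) (hc : StIc) (hd : StId) : StI := by
  intro K _ _ p P hpr hP hsep hN
  have hPP : ∀ f, P (P f) = P f := fun f => hpr.eq_self _ (hpr.mem f)
  have hmem : ∀ x, P x = x → x ∈ p := fun x hx => hx ▸ hpr.mem x
  obtain ⟨Q, hQ⟩ := ha K P hPP hP (by
    intro x hx h0
    have hn : 0 < ‖x‖ := norm_pos_iff.mpr h0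
    obtain ⟨t, ht, ht'⟩ := hN (‖x‖⁻¹ • x) (p.smul_mem _ (hmem x hx)) (by
      rw [norm_smul, norm_inv, norm_norm, inv_mul_cancel₀ hn.ne'])
    refine ⟨t, ht.conc, ?_⟩
    rw [ContinuousMap.smul_apply, smul_eq_mul, abs_mul, abs_inv, abs_norm] at ht'
    have : ‖x‖ * (‖x‖⁻¹ * |x t|) = |x t| := by field_simp
    nlinarith)
  obtain ⟨L, i1, i2, ⟨e⟩⟩ := hb K p P hpr hP hsep Q hQ
  obtain ⟨e'⟩ := hd K p P hpr hP Q hQ (hc K P hPP hP Q hQ)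
  exact ⟨L, i1, i2, ⟨e'.trans e⟩⟩

end C93117
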